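import Mathlib
import Pool.Agent.H.MP_1f2de8_an.E

set_option autoImplicit false

namespace Run7.h196.AC

open Filter Topology Metric Complex Finset PowerSeries
open Pool.Agent.H.MP_7a60ac_an Pool.Agent.H.MP_0e1b7e_an Pool.Agent.H.MP_1f2de8_an

/-- Coefficients of `(1/α) z^{-1/α} ∫_0^z ζ^{1/α-1} (1-ζ)^{-2/α} dζ`. -/
noncomputable def bk (α : ℝ) (k : ℕ) : ℝ :=
  (∏ i ∈ range k, (2 / α + i)) / (k.factorial * (1 + α * k))

/-- The `n`-th Taylor coefficient of `z (∑ b_k z^k)^α`, by the binomial series. -/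
noncomputable def K (α : ℝ) (n : ℕ) : ℝ :=
  ∑ j ∈ range n, (∏ i ∈ range j, (α - i)) / j.factorial *
    coeff (n - 1) ((PowerSeries.mk (bk α) - 1) ^ j)

variable {α : ℝ}

/-- the recursion sequence -/
noncomputable def cs (α : ℝ) : ℕ → ℝ
  | 0 => 1
  | k + 1 => (α * (k + 1) - 1) / (1 + α * (k + 1)) * cs α k

theorem cs_rec (h0 : 0 < α) (k : ℕ) :
    (1 + α * (k + 1)) * cs α (k + 1) = (α * (k + 1) - 1) * cs α k := by
  have : (1 + α * (k + 1)) ≠ 0 := by positivity
  rw [cs]; field_simp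

/-- the formal series of `W` -/
noncomputable def Wr (α : ℝ) : ℝ⟦X⟧ := (1 - X) * PowerSeries.mk (cs α)

theorem G_ode (h0 : 0 < α) : C α * X * (1 - X) * d⁄dX ℝ (PowerSeries.mk (cs α)) +
    (1 + X - C α * X) * PowerSeries.mk (cs α) = 1 := by
  rw [show C α * X * (1 - X) * d⁄dX ℝ (PowerSeries.mk (cs α)) +
    (1 + X - C α * X) * PowerSeries.mk (cs α) =
    C α * (X * d⁄dX ℝ (PowerSeries.mk (cs α))) + PowerSeries.mk (cs α)
    - C α * (X * (X * d⁄dX ℝ (PowerSeries.mk (cs α)))) + X * PowerSeries.mk (cs α) -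
      C α * (X * PowerSeries.mk (cs α)) by ring]
  ext k
  rcases k with _ | k
  · simp [cs]
  · have := cs_rec h0 k
    simp only [map_add, map_sub, coeff_C_mul, xd, coeff_succ_X_mul, coeff_mk, coeff_one,
      if_neg k.succ_ne_zero, coeff_derivative]
    linear_combination this

theorem Wr_ode (h0 : 0 < α) :
    (1 + X) * Wr α + C α * X * (1 - X) * d⁄dX ℝ (Wr α) = 1 - X := by
  have := G_ode h0
  rw [Wr]
  simp only [Derivation.leibniz, map_sub, Derivation.map_one_eq_zero, derivative_X, smul_eq_mul]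
  linear_combination (1 - X) * this

/-- coefficients of `(1-z)^{-2/α}` -/
noncomputable def Dk (α : ℝ) (k : ℕ) : ℝ := (∏ i ∈ range k, (2 / α + i)) / k.factorial

theorem D_ode : (1 - X) * d⁄dX ℝ (PowerSeries.mk (Dk α)) = C (2 / α) * PowerSeries.mk (Dk α) := by
  ext k
  have h : (k + 1 : ℝ) * Dk α (k + 1) = (2 / α + k) * Dk α k := by
    simp only [Dk, prod_range_succ, Nat.factorial_succ]
    push_cast
    have : (k.factorial : ℝ) ≠ 0 := by exact_mod_cast k.factorial_ne_zero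
    field_simp
  rw [sub_mul, one_mul, map_sub, xd, coeff_derivative, coeff_C_mul]
  simp only [coeff_mk]
  linear_combination h

theorem one_sub_X_ne : (1 - X : ℝ⟦X⟧) ≠ 0 := fun h => by
  simpa using congrArg constantCoeff h

theorem DW (h0 : 0 < α) : PowerSeries.mk (Dk α) * Wr α = PowerSeries.mk (bk α) := by
  have hD := D_ode (α := α)
  have hW := Wr_ode h0
  have e : PowerSeries.mk (Dk α) * Wr α + C α * (X * d⁄dX ℝ (PowerSeries.mk (Dk α) * Wr α)) =
      PowerSeries.mk (Dk α) := by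
    refine mul_left_cancel₀ one_sub_X_ne ?_
    have hC : (C α : ℝ⟦X⟧) * C (2 / α) = 2 := by
      rw [← map_mul, mul_div_cancel₀ _ h0.ne', map_ofNat]
    rw [Derivation.leibniz]
    simp only [smul_eq_mul]
    linear_combination C α * X * Wr α * hD + PowerSeries.mk (Dk α) * hW +
      X * PowerSeries.mk (Dk α) * Wr α * hC
  ext k
  have := congrArg (coeff k) e
  rw [map_add, coeff_C_mul, xd, coeff_mk] at this
  have h1 : (1 + α * k) ≠ 0 := by positivity
  have h2 : (k.factorial : ℝ) ≠ 0 := by exact_mod_cast k.factorial_ne_zero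
  rw [coeff_mk, bk, eq_div_iff (by positivity)]
  rw [Dk, eq_div_iff h2] at this
  linear_combination this

theorem B_ode (h0 : 0 < α) {Φ : ℝ⟦X⟧} (hΦ : Φ * Wr α = 1) :
    C α * (X * d⁄dX ℝ (PowerSeries.mk (bk α))) = (Φ - 1) * PowerSeries.mk (bk α) := by
  have h := DW h0
  have e : PowerSeries.mk (bk α) + C α * (X * d⁄dX ℝ (PowerSeries.mk (bk α))) =
      PowerSeries.mk (Dk α) := by
    ext k
    have h1 : (1 + α * k) ≠ 0 := by positivity
    have h2 : (k.factorial : ℝ) ≠ 0 := by exact_mod_cast k.factorial_ne_zero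
    rw [map_add, coeff_C_mul, xd, coeff_mk, coeff_mk, bk, Dk]
    field_simp
  linear_combination e - PowerSeries.mk (Dk α) * hΦ + Φ * h

theorem b0 : constantCoeff (PowerSeries.mk (bk α)) = 1 := by simp [bk]

theorem V_eq (h0 : 0 < α) {Φ : ℝ⟦X⟧} (hΦ : Φ * Wr α = 1) {V : ℂ⟦X⟧} (V0 : constantCoeff V = 1)
    (hV : X * d⁄dX ℂ V = (PowerSeries.map ofRealHom Φ - 1) * V) (n : ℕ) :
    coeff n V = (K α (n + 1) : ℂ) := by
  obtain ⟨B, hB⟩ : ∃ B : ℝ⟦X⟧, B = PowerSeries.mk (bk α) := ⟨_, rfl⟩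
  have e := congrArg (PowerSeries.map ofRealHom) (B_ode h0 hΦ)
  rw [← hB] at e
  have dm : PowerSeries.map ofRealHom (d⁄dX ℝ B) = d⁄dX ℂ (PowerSeries.map ofRealHom B) := by
    ext k; simp [coeff_derivative]
  simp only [map_mul, map_sub, map_one, PowerSeries.map_C, PowerSeries.map_X, dm] at e
  have c0 : constantCoeff (PowerSeries.map ofRealHom B) = 1 := by
    rw [← coeff_zero_eq_constantCoeff_apply, PowerSeries.coeff_map, hB]; simp [bk]
  have a0 : constantCoeff (PowerSeries.map ofRealHom B - 1) = 0 := by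
    rw [map_sub, c0]; simp
  have h1 : IsPow n (PowerSeries.map ofRealHom B) (α : ℂ) V := by
    refine ⟨V0, ?_⟩
    have : PowerSeries.map ofRealHom B * d⁄dX ℂ V -
        C (α : ℂ) * d⁄dX ℂ (PowerSeries.map ofRealHom B) * V = 0 := by
      refine mul_left_cancel₀ (X_ne_zero (R := ℂ)) ?_
      simp only [ofRealHom_eq_coe] at e
      linear_combination PowerSeries.map ofRealHom B * hV - V * e
    rw [this]; exact dvd_zero _
  have h2 := isPow_bin a0 α n
  rw [add_sub_cancel] at h2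
  rw [h1.coeff_eq c0 h2, K, map_sum, ofReal_sum]
  refine sum_congr rfl fun j _ => ?_
  rw [coeff_C_mul, bin, Nat.add_sub_cancel, ofReal_mul, ← hB]
  congr 1
  rw [show PowerSeries.map ofRealHom B - 1 = PowerSeries.map ofRealHom (B - 1) by simp, ← map_pow,
    PowerSeries.coeff_map, ofRealHom_eq_coe]

end Run7.h196.AC
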