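import Mathlib
import Pool.Agent.Run7.h196.ACFormal

set_option autoImplicit false

namespace Run7.h196.AC

open Filter Topology Metric Complex Finset PowerSeries
open Pool.Agent.H.MP_7a60ac_an Pool.Agent.H.MP_0e1b7e_an Pool.Agent.H.MP_1f2de8_an

/-- `M(α)`: the normalised univalent `α`-convex functions of the unit disc. -/
def M (α : ℝ) : Set (ℂ → ℂ) :=
  {f | DifferentiableOn ℂ f (ball 0 1) ∧ Set.InjOn f (ball 0 1) ∧ f 0 = 0 ∧ deriv f 0 = 1 ∧
    ∀ z ∈ ball (0 : ℂ) 1, z ≠ 0 →
      0 < (α * (1 + z * deriv (deriv f) z / deriv f z) + (1 - α) * (z * deriv f z / f z)).re}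

variable {α : ℝ}

theorem exW (h0 : 0 < α) : ∃ W : ℂ → ℂ, DifferentiableOn ℂ W (ball 0 1) ∧
    ts W = PowerSeries.map ofRealHom (Wr α) ∧ W 0 = 1 ∧ (deriv W 0).re < 0 ∧
    (∀ z ∈ ball (0 : ℂ) 1, α * (z * deriv W z) * (1 - z) + (1 + z) * W z = 1 - z) ∧
    ∀ z ∈ ball (0 : ℂ) 1, 0 < (W z).re := by
  obtain ⟨W, d, t, o⟩ := exF h0 (c := cs α) rfl (cs_rec h0)
  have t' : ts W = PowerSeries.map ofRealHom (Wr α) := by rw [t, Wr]; simp
  have W0 : W 0 = 1 := by
    have := congrArg (coeff 0) t'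
    rw [PowerSeries.coeff_map] at this
    simpa [ts, co, Wr, cs] using this
  have W1 : (deriv W 0).re < 0 := by
    have := congrArg (coeff 1) t'
    rw [PowerSeries.coeff_map] at this
    have e : coeff 1 (Wr α) = -(2 / (1 + α)) := by
      have : (1 + α) ≠ 0 := by positivity
      rw [Wr, sub_mul, one_mul, map_sub, coeff_succ_X_mul, coeff_mk, coeff_mk]
      simp [cs]; field_simp; ring
    rw [e] at this
    have h2 : deriv W 0 = ((-(2 / (1 + α)) : ℝ) : ℂ) := by
      simpa [ts, co] using this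
    rw [h2, ofReal_re, neg_lt_zero]; positivity
  refine ⟨W, d, t', W0, W1, o, fun z hz => ?_⟩
  obtain ⟨b, hb, e⟩ := exb h0 d W0 o z hz
  rw [← e]; exact qr (hb.trans_lt (mem_ball_zero_iff.1 hz))

/-- the reciprocal series `Φ = 1 / W` -/
noncomputable def Ph (α : ℝ) : ℝ⟦X⟧ := (Wr α)⁻¹

theorem Ph_mul : Ph α * Wr α = 1 :=
  PowerSeries.inv_mul_cancel _ (by simp [Wr, cs])

theorem ts_inv {W : ℂ → ℂ} (d : DifferentiableOn ℂ W (ball 0 1))
    (t : ts W = PowerSeries.map ofRealHom (Wr α)) (p : ∀ z ∈ ball (0 : ℂ) 1, 0 < (W z).re) :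
    ts (fun z => 1 / W z) = PowerSeries.map ofRealHom (Ph α) := by
  have b := ball_mem_nhds (0 : ℂ) one_pos
  have nz : ∀ z ∈ ball (0 : ℂ) 1, W z ≠ 0 := fun z hz e => by
    have := p z hz; rw [e] at this; simp at this
  have d' : DifferentiableOn ℂ (fun z => 1 / W z) (ball 0 1) :=
    DifferentiableOn.div (by fun_prop) d nz
  have h1 : ts (fun z => 1 / W z) * ts W = 1 := by
    rw [← ts_mul (d'.analyticAt b) (d.analyticAt b), ← map_one (C (R := ℂ)), ← ts_const]
    exact ts_congr (mem_of_superset b fun z hz => by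
      have := nz z hz
      simp only [Set.mem_ofPred_eq]; field_simp)
  have h2 : PowerSeries.map ofRealHom (Ph α) * ts W = 1 := by
    rw [t, ← map_mul, Ph_mul, map_one]
  have h3 : ts W ≠ 0 := fun h => by rw [h, mul_zero] at h1; exact zero_ne_one h1
  exact mul_right_cancel₀ h3 (h1.trans h2.symm)

theorem ts_factor {f g : ℂ → ℂ} (hg : DifferentiableOn ℂ g (ball 0 1))
    (e : ∀ z ∈ ball (0 : ℂ) 1, f z = z * g z) : ts f = X * ts g := by
  have b := ball_mem_nhds (0 : ℂ) one_pos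
  rw [ts_congr (g := fun z => z * g z) (mem_of_superset b e), ts_mul (by fun_prop)
    (hg.analyticAt b), ts_id]

theorem ts_ode {g q : ℂ → ℂ} (hg : DifferentiableOn ℂ g (ball 0 1))
    (hq : DifferentiableOn ℂ q (ball 0 1)) (e : ∀ z ∈ ball (0 : ℂ) 1, z * deriv g z = q z * g z) :
    X * d⁄dX ℂ (ts g) = ts q * ts g := by
  have b := ball_mem_nhds (0 : ℂ) one_pos
  rw [← ts_deriv, ← ts_id, ← ts_mul (by fun_prop) (hg.analyticAt b).deriv,
    ← ts_mul (hq.analyticAt b) (hg.analyticAt b)]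
  exact ts_congr (mem_of_superset b e)

theorem ts_sub_one {q : ℂ → ℂ} (hq : DifferentiableOn ℂ q (ball 0 1)) :
    ts (fun z => q z - 1) = ts q - 1 := by
  have b := ball_mem_nhds (0 : ℂ) one_pos
  have := ts_add (hq.analyticAt b) (g := fun _ => (-1 : ℂ)) (by fun_prop)
  rw [ts_const] at this
  simpa [sub_eq_add_neg] using this

/-- The extremal function. -/
theorem exK (h0 : 0 < α) : ∃ k ∈ M α, ∃ g : ℂ → ℂ, DifferentiableOn ℂ g (ball 0 1) ∧ g 0 = 1 ∧
    (∀ z ∈ ball (0 : ℂ) 1, k z = z * g z) ∧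
    X * d⁄dX ℂ (ts g) = (PowerSeries.map ofRealHom (Ph α) - 1) * ts g := by
  obtain ⟨W, d, t, W0, W1, o, p⟩ := exW h0
  have b := ball_mem_nhds (0 : ℂ) one_pos
  have nz : ∀ z ∈ ball (0 : ℂ) 1, W z ≠ 0 := fun z hz e => by
    have := p z hz; rw [e] at this; simp at this
  have d' : DifferentiableOn ℂ (fun z => 1 / W z) (ball 0 1) :=
    DifferentiableOn.div (by fun_prop) d nz
  obtain ⟨φ, hφ⟩ : ∃ φ : ℂ → ℂ, φ = dslope (fun z => 1 / W z) 0 := ⟨_, rfl⟩
  have dφ : DifferentiableOn ℂ φ (ball 0 1) := by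
    rw [hφ, differentiableOn_dslope b]; exact d'
  have eφ : ∀ z, z * φ z = 1 / W z - 1 := fun z => by
    have := sub_smul_dslope (fun z => 1 / W z) 0 z
    rw [hφ]; simpa [W0] using this
  obtain ⟨L, L0, hL⟩ := (dφ.isExactOn_ball).with_val_at 0 0
  have dL : DifferentiableOn ℂ L (ball 0 1) := fun z hz => (hL z hz).differentiableAt.differentiableWithinAt
  obtain ⟨g, hg⟩ : ∃ g : ℂ → ℂ, g = fun z => exp (L z) := ⟨_, rfl⟩
  have dg : ∀ z ∈ ball (0 : ℂ) 1, HasDerivAt g (g z * φ z) z := fun z hz => by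
    rw [hg]; exact (hL z hz).cexp
  have Dg : DifferentiableOn ℂ g (ball 0 1) := fun z hz => (dg z hz).differentiableAt.differentiableWithinAt
  have g0 : g 0 = 1 := by rw [hg]; simp [L0]
  have gn : ∀ z, g z ≠ 0 := fun z => by rw [hg]; exact exp_ne_zero _
  obtain ⟨k, hk⟩ : ∃ k : ℂ → ℂ, k = fun z => z * g z := ⟨_, rfl⟩
  have dk : ∀ z ∈ ball (0 : ℂ) 1, HasDerivAt k (g z / W z) z := fun z hz => by
    have := (hasDerivAt_id' z).fun_mul (dg z hz)
    rw [hk]
    refine this.congr_deriv ?_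
    linear_combination g z * eφ z
  have Dk : DifferentiableOn ℂ k (ball 0 1) := fun z hz => (dk z hz).differentiableAt.differentiableWithinAt
  have ddk : ∀ z ∈ ball (0 : ℂ) 1, deriv (deriv k) z =
      (g z * φ z * W z - g z * deriv W z) / W z ^ 2 := fun z hz => by
    have n := isOpen_ball.mem_nhds hz
    have e : deriv k =ᶠ[𝓝 z] fun z => g z / W z := mem_of_superset n fun y hy => (dk y hy).deriv
    rw [e.deriv_eq, ((dg z hz).fun_div (d.differentiableAt n).hasDerivAt (nz z hz)).deriv]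
  refine ⟨k, ⟨Dk, ?_, by simp [hk], by rw [(dk 0 (mem_ball_self one_pos)).deriv, W0, g0, div_one],
    fun z hz z0 => ?_⟩, g, Dg, g0, fun z _ => by rw [hk], ?_⟩
  · -- univalence
    have inj : Set.InjOn (fun s => s + L (exp s)) {s : ℂ | s.re < 0} := by
      refine nw (convex_halfSpace_re_lt _) fun s hs => ?_
      have m : exp s ∈ ball (0 : ℂ) 1 := by
        rw [mem_ball_zero_iff, norm_exp]; simpa using hs
      have h1 := (hasDerivAt_id' s).fun_add (HasDerivAt.comp s (h₂ := L) (hL _ m) (hasDerivAt_exp s))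
      refine ⟨_, ?_, h1⟩
      rw [mul_comm, eφ, add_sub_cancel]
      rw [one_div, inv_re]
      exact div_pos (p _ m) (normSq_pos.2 (nz _ m))
    have zero : ∀ z, k z = 0 → z = 0 := fun z h => by
      rw [hk] at h; exact (mul_eq_zero.1 h).resolve_right (gn z)
    intro x hx y hy e
    rcases eq_or_ne x 0 with rfl | x0
    · exact (zero y (by rw [← e, hk]; simp)).symm
    rcases eq_or_ne y 0 with rfl | y0
    · exact zero x (by rw [e, hk]; simp)
    have hlog : ∀ z : ℂ, z ∈ ball (0 : ℂ) 1 → z ≠ 0 → (log z).re < 0 := fun z hz z0 => by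
      rw [log_re]; exact Real.log_neg (norm_pos_iff.2 z0) (mem_ball_zero_iff.1 hz)
    have e2 : exp (log x + L x) = exp (log y + L y) := by
      rw [exp_add, exp_add, exp_log x0, exp_log y0]
      simpa [hk, hg] using e
    obtain ⟨n, hn⟩ := exp_eq_exp_iff_exists_int.1 e2
    have pe : exp (log y + n * (2 * Real.pi * I)) = y := by
      rw [exp_add, exp_log y0, exp_int_mul_two_pi_mul_I, mul_one]
    have := inj (x₁ := log x) (x₂ := log y + n * (2 * Real.pi * I)) (hlog x hx x0) (by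
      simpa using hlog y hy y0) (by
        simp only [exp_log x0, pe]
        rw [hn]; ring)
    rw [← exp_log x0, this, pe]
  · have hW := nz z hz
    have hg := gn z
    have hz1 : (1 - z) ≠ 0 := ne1 (mem_ball_zero_iff.1 hz)
    have ek : k z = z * g z := by rw [hk]
    have key : (α * (1 + z * deriv (deriv k) z / deriv k z) + (1 - α) * (z * deriv k z / k z)) =
        (1 + 1 * z) / (1 - 1 * z) := by
      rw [(dk z hz).deriv, ddk z hz, ek]
      have h1 := eφ z
      have h2 := o z hz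
      have h3 : z * φ z = (1 - W z) / W z := by rw [h1]; field_simp
      have h4 : α * (z * deriv W z) = 1 - (1 + z) / (1 - z) * W z := by
        field_simp; linear_combination h2
      have h5 : z * ((g z * φ z * W z - g z * deriv W z) / W z ^ 2) / (g z / W z) =
          (1 - W z) / W z - z * deriv W z / W z := by
        rw [← h3]; field_simp
      have h6 : z * (g z / W z) / (z * g z) = 1 / W z := by field_simp
      rw [h5, h6]
      have h7 : α * (1 + ((1 - W z) / W z - z * deriv W z / W z)) + (1 - α) * (1 / W z) =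
        (1 - α * (z * deriv W z)) / W z := by field_simp; ring
      rw [h7, h4]; field_simp; ring
    rw [key]
    exact (k_re norm_one hz).2
  · rw [← ts_inv d t p, ← ts_sub_one d']
    refine ts_ode Dg (by fun_prop) fun z hz => ?_
    rw [(dg z hz).deriv, ← eφ]; ring

end Run7.h196.AC
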