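import Mathlib
import Pool.Agent.Run7.h196.ACAnalytic

set_option autoImplicit false

namespace Run7.h196.AC

open Filter Topology Metric Complex Finset PowerSeries
open Pool.Agent.H.MP_7a60ac_an Pool.Agent.H.MP_0e1b7e_an Pool.Agent.H.MP_1f2de8_an

variable {α : ℝ}

theorem coeff_k {k g : ℂ → ℂ} (h0 : 0 < α) (k0 : k 0 = 0) (dg : DifferentiableOn ℂ g (ball 0 1))
    (g0 : g 0 = 1) (e : ∀ z ∈ ball (0 : ℂ) 1, k z = z * g z)
    (o : X * d⁄dX ℂ (ts g) = (PowerSeries.map ofRealHom (Ph α) - 1) * ts g) (n : ℕ) :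
    iteratedDeriv n k 0 / n.factorial = (K α n : ℂ) := by
  rcases n with _ | n
  · simp [K, k0]
  · have h1 := V_eq h0 Ph_mul (V := ts g) (by simp [ts, co, g0]) o n
    have h2 := congrArg (coeff (n + 1)) (ts_factor dg e)
    rw [coeff_succ_X_mul, h1] at h2
    simpa only [ts, coeff_mk, co] using h2

/-- the real series of the extremal function divided by `z` -/
noncomputable def Vr (α : ℝ) : ℝ⟦X⟧ := PowerSeries.mk fun n => K α (n + 1)

theorem Vr_ode (h0 : 0 < α) : X * d⁄dX ℝ (Vr α) = (Ph α - 1) * Vr α := by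
  obtain ⟨k, -, g, dg, g0, -, o⟩ := exK h0
  have e : ts g = PowerSeries.map ofRealHom (Vr α) := by
    ext n
    rw [V_eq h0 Ph_mul (V := ts g) (by simp [ts, co, g0]) o n, PowerSeries.coeff_map, Vr, coeff_mk,
      ofRealHom_eq_coe]
  rw [e] at o
  have dm : PowerSeries.map ofRealHom (d⁄dX ℝ (Vr α)) =
      d⁄dX ℂ (PowerSeries.map ofRealHom (Vr α)) := by
    ext k; simp [coeff_derivative]
  rw [← dm, ← map_one (PowerSeries.map ofRealHom), ← map_sub, ← map_mul,
    ← PowerSeries.map_X ofRealHom, ← map_mul] at o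
  exact PowerSeries.map_injective _ ofReal_injective o

/-- The coefficient bound. -/
theorem bound (h0 : 0 < α) (h1 : α < 1) {f : ℂ → ℂ} (hf : f ∈ M α) (n : ℕ) :
    ‖iteratedDeriv n f 0 / n.factorial‖ ≤ K α n := by
  obtain ⟨df, inj, f0, f1, hp⟩ := hf
  obtain ⟨W, d, t, W0, W1, o, p⟩ := exW h0
  have b := ball_mem_nhds (0 : ℂ) one_pos
  rcases n with _ | n
  · simp [K, f0]
  have nz : ∀ z ∈ ball (0 : ℂ) 1, W z ≠ 0 := fun z hz e => by
    have := p z hz; rw [e] at this; simp at this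
  have d' : DifferentiableOn ℂ (fun z => 1 / W z) (ball 0 1) :=
    DifferentiableOn.div (by fun_prop) d nz
  -- `g = f / z`
  obtain ⟨g, hg⟩ : ∃ g : ℂ → ℂ, g = dslope f 0 := ⟨_, rfl⟩
  have dg : DifferentiableOn ℂ g (ball 0 1) := by
    rw [hg, differentiableOn_dslope b]; exact df
  have eg : ∀ z, f z = z * g z := fun z => by
    have := sub_smul_dslope f 0 z
    rw [hg]; simpa [f0] using this.symm
  have g0 : g 0 = 1 := by rw [hg, dslope_same, f1]
  have gn : ∀ z ∈ ball (0 : ℂ) 1, g z ≠ 0 := fun z hz h => by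
    rcases eq_or_ne z 0 with rfl | z0
    · rw [g0] at h; exact one_ne_zero h
    · exact z0 (inj hz (mem_ball_self one_pos) (by rw [eg z, h, mul_zero, f0]))
  have fn : ∀ z ∈ ball (0 : ℂ) 1, deriv f z ≠ 0 :=
    (inv_an isOpen_ball (df.analyticOnNhd isOpen_ball) inj).2.2
  have ddf := df.deriv isOpen_ball
  have df' : ∀ z ∈ ball (0 : ℂ) 1, deriv f z = g z + z * deriv g z := fun z hz => by
    have := (hasDerivAt_id' z).fun_mul (dg.differentiableAt (isOpen_ball.mem_nhds hz)).hasDerivAt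
    rw [show f = fun z => z * g z from funext eg, this.deriv]; ring
  -- `w = f / (z f')`
  obtain ⟨w, hw⟩ : ∃ w : ℂ → ℂ, w = fun z => g z / deriv f z := ⟨_, rfl⟩
  have dw : DifferentiableOn ℂ w (ball 0 1) := by rw [hw]; exact DifferentiableOn.div dg ddf fn
  have wn : ∀ z ∈ ball (0 : ℂ) 1, w z ≠ 0 := fun z hz => by
    rw [hw]; exact div_ne_zero (gn z hz) (fn z hz)
  obtain ⟨q, hq⟩ : ∃ q : ℂ → ℂ, q = fun z => α * (1 + z * deriv (deriv f) z / deriv f z) +
    (1 - α) * (1 / w z) := ⟨_, rfl⟩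
  have dq : DifferentiableOn ℂ q (ball 0 1) := by
    have h2 := ddf.deriv isOpen_ball
    have h3 : DifferentiableOn ℂ (fun z => z * deriv (deriv f) z / deriv f z) (ball 0 1) :=
      DifferentiableOn.div (by fun_prop) ddf fn
    have h4 : DifferentiableOn ℂ (fun z => 1 / w z) (ball 0 1) :=
      DifferentiableOn.div (by fun_prop) dw wn
    rw [hq]; fun_prop
  have q0 : q 0 = 1 := by rw [hq, hw]; simp [g0, f1]
  have pq : ∀ z ∈ ball (0 : ℂ) 1, 0 < (q z).re := fun z hz => by
    rcases eq_or_ne z 0 with rfl | z0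
    · rw [q0]; simp
    · have := hp z hz z0
      rw [hq]
      convert this using 4
      rw [hw, eg z]
      have := gn z hz
      have := fn z hz
      field_simp
  have w0 : w 0 = 1 := by rw [hw]; simp [g0, f1]
  have dw' : ∀ z ∈ ball (0 : ℂ) 1, z * deriv w z = 1 - w z - w z * (z * deriv (deriv f) z / deriv f z) :=
    fun z hz => by
    have n := isOpen_ball.mem_nhds hz
    have h1 := (dg.differentiableAt n).hasDerivAt.fun_div (ddf.differentiableAt n).hasDerivAt (fn z hz)
    have h2 := df' z hz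
    have h3 := fn z hz
    rw [hw, h1.deriv]
    field_simp
    linear_combination -deriv f z * h2
  obtain ⟨ω, dω, ω0, hω⟩ := subW h0 d W0 W1 o dw dq w0 q0 pq fun z hz => by
    rw [dw' z hz, hq]
    have := wn z hz
    field_simp
    ring
  -- the formal side
  have mω : ∀ z ∈ ball (0 : ℂ) 1, ω z ∈ ball (0 : ℂ) 1 := fun z hz =>
    mem_ball_zero_iff.2 ((hω z hz).1.trans_lt (mem_ball_zero_iff.1 hz))
  have dQ : DifferentiableOn ℂ (fun z => 1 / W (ω z) - 1) (ball 0 1) := by
    have : DifferentiableOn ℂ (fun z => 1 / W (ω z)) (ball 0 1) := d'.comp dω mω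
    fun_prop
  have hU : X * d⁄dX ℂ (ts g) = ts (fun z => 1 / W (ω z) - 1) * ts g :=
    ts_ode dg dQ fun z hz => by
      rw [(hω z hz).2, hw]
      have h2 := df' z hz
      have h3 := fn z hz
      have h4 := gn z hz
      field_simp
      linear_combination -h2
  obtain ⟨μ, χ, hμ, h4, χ0, χ1, hj⟩ := dec (β := 1 / α) (c := cs α) (Φ := Ph α)
    (by rw [lt_div_iff₀ h0]; linarith) rfl (fun k => by
      have : (1 + α * (k + 1)) ≠ 0 := by positivity
      have : (1 / α + (k + 1)) ≠ 0 := by positivity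
      rw [cs]; field_simp) Ph_mul
  have cV : coeff n (Vr α) = K α (n + 1) := by rw [Vr, coeff_mk]
  have P0 : constantCoeff (Ph α) = 1 := by
    have := congrArg constantCoeff (Ph_mul (α := α))
    simpa [Wr, cs] using this
  have main := maj (U := ts g) (Q := ts (fun z => 1 / W (ω z) - 1)) (V := Vr α) (Φ := Ph α - 1)
    (by simp [ts, co, g0]) (by simp [Vr, K]) hU (by simp [ts, co, ω0, W0]) (Vr_ode h0)
    (by simp [P0]) (fun j => by
      rw [map_sub, coeff_one, if_neg j.succ_ne_zero, sub_zero]; exact (hj j).2) (fun m => ?_) n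
  · rw [cV] at main
    have h2 := congrArg (coeff (n + 1)) (ts_factor dg fun z _ => eg z)
    rw [coeff_succ_X_mul] at h2
    simp only [ts, coeff_mk, co] at h2 main ⊢
    rw [h2]; exact main
  · -- the `l^1` estimate
    have S := schur dω ω0 (fun z hz => mem_ball_zero_iff.1 (mω z hz)) hμ (h4 m) χ0 χ1
    have v : ∀ j, ∑ i ∈ range j, μ i + χ j = coeff j (Ph α - 1) := fun j => by
      rcases j with _ | j
      · simp [χ0, P0]
      · rw [← (hj j).1, map_sub, coeff_one, if_neg j.succ_ne_zero, sub_zero]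
    have c := ts_comp (φ := fun z => 1 / W z - 1) (ω := ω) ((d'.analyticAt b).fun_sub (by fun_prop))
      (dω.analyticAt b) ω0 (m + 1)
    have cφ : ∀ j, co (fun z => 1 / W z - 1) j = ((coeff j (Ph α - 1) : ℝ) : ℂ) := fun j => by
      have e := congrArg (coeff j) (ts_sub_one d')
      rw [ts_inv d t p, ← map_one (PowerSeries.map ofRealHom), ← map_sub, PowerSeries.coeff_map] at e
      simpa only [ts, coeff_mk, ofRealHom_eq_coe] using e
    rw [P, sum_congr rfl fun j _ => v j] at S
    refine le_trans (le_of_eq (sum_congr rfl fun j hj' => ?_)) S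
    have e := co_eq c (k := j) (Nat.lt_succ_iff.1 (mem_range.1 hj'))
    rw [e]
    congr 2
    rw [T]
    exact sum_congr rfl fun i _ => by rw [cφ, v]

end Run7.h196.AC
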